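import Pool.Agent.NPC.Defs
import Pool.Agent.H634R2.GraphDefs

set_option autoImplicit false

/-!
# Red-blue cut problems
-/

namespace Pool.Agent.X130.RB

open Pool.Agent.NPC Pool.Agent.NPC.H634R2

/-- The number of edges of the list `E` in the cut `δ(X)`, i.e. with exactly one end in `X`. -/
def cut (E : List (ℕ × ℕ)) (X : Finset ℕ) : ℕ :=
  E.countP (fun e => decide (¬ (e.1 ∈ X ↔ e.2 ∈ X)))

/-- The number of arcs of the list `A` in the cut `δ⁺(X)`, i.e. with tail in `X` and head not in
`X`. -/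
def outCut (A : List (ℕ × ℕ)) (X : Finset ℕ) : ℕ :=
  A.countP (fun a => decide (a.1 ∈ X ∧ a.2 ∉ X))

/-- Instances of the undirected red-blue `s`-`t` cut problem: the list of the vertices, the list of the
red edges, the list of the blue edges, the terminals `(s, t)` and the bounds `(r, b)`. -/
abbrev STInst : Type := (List ℕ × List (ℕ × ℕ) × List (ℕ × ℕ)) × (ℕ × ℕ) × (ℕ × ℕ)

/-- **The unweighted undirected red-blue `s`-`t` cut problem**: the data describe a finite simple graph
whose edges are coloured red or blue, with two distinct vertices `s` and `t`, and there is a set `X`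
of vertices with `s ∈ X` and `t ∉ X` such that at most `r` red edges and at most `b` blue edges join
`X` to its complement. -/
def STCut (I : STInst) : Prop :=
  IsGraph I.1.1 (I.1.2.1 ++ I.1.2.2) ∧ I.2.1.1 ∈ I.1.1 ∧ I.2.1.2 ∈ I.1.1 ∧ I.2.1.1 ≠ I.2.1.2 ∧
    ∃ X : Finset ℕ, (∀ v ∈ X, v ∈ I.1.1) ∧ I.2.1.1 ∈ X ∧ I.2.1.2 ∉ X ∧
      cut I.1.2.1 X ≤ I.2.2.1 ∧ cut I.1.2.2 X ≤ I.2.2.2

/-- `V` lists the vertices and `A` the arcs of a finite digraph: vertices are listed once, arcs join
two distinct vertices, no arc is listed twice. -/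
def IsDigraph (V : List ℕ) (A : List (ℕ × ℕ)) : Prop :=
  V.Nodup ∧ (∀ a ∈ A, a.1 ∈ V ∧ a.2 ∈ V ∧ a.1 ≠ a.2) ∧ A.Nodup

/-- Instances of the directed red-blue cut problem: the list of the vertices, the list of the red
arcs, the list of the blue arcs and the bounds `(r, b)`. -/
abbrev DInst : Type := (List ℕ × List (ℕ × ℕ) × List (ℕ × ℕ)) × (ℕ × ℕ)

/-- **The directed red-blue cut problem**: the data describe a finite digraph without loops and
parallel arcs whose arcs are coloured red or blue, and there is a nonempty proper subset `X` of the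
vertices such that `δ⁺(X)` contains at most `r` red arcs and at most `b` blue arcs. -/
def DiCut (I : DInst) : Prop :=
  IsDigraph I.1.1 (I.1.2.1 ++ I.1.2.2) ∧
    ∃ X : Finset ℕ, (∀ v ∈ X, v ∈ I.1.1) ∧ X.Nonempty ∧ (∃ v ∈ I.1.1, v ∉ X) ∧
      outCut I.1.2.1 X ≤ I.2.1 ∧ outCut I.1.2.2 X ≤ I.2.2

end Pool.Agent.X130.RB
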