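import Mathlib
import Pool.Agent.X130.RB.Defs
import Pool.Agent.H634R2.Clique
import Pool.Agent.H601R2.PP

set_option autoImplicit false

/-!
# The undirected problem: reduction from CLIQUE
-/

namespace Pool.Agent.X130.RB

open Pool.Agent.NPC Pool.Agent.NPC.H634R2

/-- The ends of the edges, each with its position. -/
def ends (E : List (ℕ × ℕ)) : List (ℕ × ℕ) := (E.flatMap (fun e => [e.1, e.2])).zipIdx

/-- red edges from `s = 0` to the subdivision vertices -/
def R1 (E : List (ℕ × ℕ)) : List (ℕ × ℕ) := (ends E).map (fun p => (3 * p.2 + 1, 0))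

/-- red edges from the subdivision vertices to the vertices -/
def R2 (E : List (ℕ × ℕ)) : List (ℕ × ℕ) := (ends E).map (fun p => (3 * p.2 + 1, 3 * p.1 + 2))

/-- red edges between the vertices -/
def R3 (E : List (ℕ × ℕ)) : List (ℕ × ℕ) := E.map (fun e => (3 * e.1 + 2, 3 * e.2 + 2))

/-- blue edges from the vertices to `t = 3` -/
def B1 (V : List ℕ) : List (ℕ × ℕ) := V.map (fun x => (3 * x + 2, 3))

/-- the vertices -/
def W (V : List ℕ) (E : List (ℕ × ℕ)) : List ℕ :=
  0 :: 3 :: (V.map (fun x => 3 * x + 2) ++ (ends E).map (fun p => 3 * p.2 + 1))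

/-- the reduction -/
def red (I : (List ℕ × List (ℕ × ℕ)) × ℕ) : STInst :=
  if I.2 * (I.2 - 1) / 2 ≤ I.1.2.length then
    ((W I.1.1 I.1.2, R1 I.1.2 ++ (R2 I.1.2 ++ R3 I.1.2), B1 I.1.1), (0, 3),
      (2 * (I.1.2.length - I.2 * (I.2 - 1) / 2), I.2))
  else (([0, 3], [(0, 3)], []), (0, 3), (0, 0))

theorem ends_snd (E : List (ℕ × ℕ)) : ((ends E).map Prod.snd).Nodup := by
  unfold ends
  rw [List.zipIdx_map_snd]
  exact List.nodup_range'

theorem ends_nodup (E : List (ℕ × ℕ)) : (ends E).Nodup := List.Nodup.of_map _ (ends_snd E)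

theorem ends_mem {V : List ℕ} {E : List (ℕ × ℕ)} (h : IsGraph V E) {p : ℕ × ℕ} (hp : p ∈ ends E) :
    p.1 ∈ V := by
  unfold ends at hp
  obtain ⟨x, i⟩ := p
  have h1 := (List.mem_zipIdx_iff_getElem?.1 hp)
  have h2 : x ∈ E.flatMap (fun e => [e.1, e.2]) := List.mem_of_getElem? h1
  rw [List.mem_flatMap] at h2
  obtain ⟨e, he, hx⟩ := h2
  have h3 := h.2.1 e he
  simp only [List.mem_cons, List.not_mem_nil, or_false] at hx
  rcases hx with rfl | rfl
  · exact h3.1
  · exact h3.2.1

theorem ends_inj {E : List (ℕ × ℕ)} {p q : ℕ × ℕ} (hp : p ∈ ends E) (hq : q ∈ ends E)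
    (h : p.2 = q.2) : p = q := by
  exact List.inj_on_of_nodup_map (ends_snd E) hp hq h

theorem isGraph_W {V : List ℕ} {E : List (ℕ × ℕ)} (h : IsGraph V E) :
    IsGraph (W V E) ((R1 E ++ (R2 E ++ R3 E)) ++ B1 V) := by
  refine ⟨?_, ?_, ?_⟩
  · unfold W
    rw [List.nodup_cons, List.nodup_cons, List.nodup_append']
    refine ⟨?_, ?_, ?_, ?_, ?_⟩
    · simp only [List.mem_cons, List.mem_append, List.mem_map, not_or]
      refine ⟨by omega, ?_, ?_⟩
      · rintro ⟨x, _, hx⟩; omega
      · rintro ⟨x, _, hx⟩; omega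
    · simp only [List.mem_append, List.mem_map, not_or]
      refine ⟨?_, ?_⟩
      · rintro ⟨x, _, hx⟩; omega
      · rintro ⟨x, _, hx⟩; omega
    · exact h.1.map (fun a b (hab : 3 * a + 2 = 3 * b + 2) => by omega)
    · have := ends_snd E
      have h2 := this.map (f := fun j : ℕ => 3 * j + 1) (fun a b (hab : 3 * a + 1 = 3 * b + 1) => by omega)
      rwa [List.map_map] at h2
    · intro x hx hx'
      rw [List.mem_map] at hx hx'
      obtain ⟨a, _, ha⟩ := hx
      obtain ⟨b, _, hb⟩ := hx'
      omega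
  · intro e he
    simp only [R1, R2, R3, B1, List.mem_append, List.mem_map] at he
    unfold W
    simp only [List.mem_cons, List.mem_append, List.mem_map]
    rcases he with (⟨p, hp, rfl⟩ | ⟨p, hp, rfl⟩ | ⟨p, hp, rfl⟩) | ⟨p, hp, rfl⟩
    · exact ⟨Or.inr (Or.inr (Or.inr ⟨p, hp, rfl⟩)), Or.inl rfl, by simp⟩
    · refine ⟨Or.inr (Or.inr (Or.inr ⟨p, hp, rfl⟩)), Or.inr (Or.inr (Or.inl ⟨p.1, ends_mem h hp, rfl⟩)),
        by simp only; omega⟩
    · obtain ⟨h1, h2, h3⟩ := h.2.1 p hp
      refine ⟨Or.inr (Or.inr (Or.inl ⟨p.1, h1, rfl⟩)), Or.inr (Or.inr (Or.inl ⟨p.2, h2, rfl⟩)),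
        by simp only; omega⟩
    · exact ⟨Or.inr (Or.inr (Or.inl ⟨p, hp, rfl⟩)), Or.inr (Or.inl rfl), by simp only; omega⟩
  · simp only [R1, R2, R3, B1, List.map_append, List.map_map]
    rw [List.nodup_append', List.nodup_append', List.nodup_append']
    refine ⟨⟨?_, ⟨?_, ?_, ?_⟩, ?_⟩, ?_, ?_⟩
    · refine List.Nodup.map_on ?_ (ends_nodup E)
      intro p hp q hq hpq
      simp only [Function.comp_apply, Sym2.eq_iff] at hpq
      exact ends_inj hp hq (by omega)
    · refine List.Nodup.map_on ?_ (ends_nodup E)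
      intro p hp q hq hpq
      simp only [Function.comp_apply, Sym2.eq_iff] at hpq
      exact ends_inj hp hq (by omega)
    · have h2 := h.2.2.map (f := Sym2.map (fun x : ℕ => 3 * x + 2))
        (Sym2.map.injective (fun a b (hab : 3 * a + 2 = 3 * b + 2) => by omega))
      rw [List.map_map] at h2
      exact h2
    · intro x hx hx'
      simp only [List.mem_map, Function.comp_apply] at hx hx'
      obtain ⟨a, _, rfl⟩ := hx
      obtain ⟨b, _, hb⟩ := hx'
      simp only [Sym2.eq_iff] at hb
      omega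
    · intro x hx hx'
      simp only [List.mem_map, List.mem_append, Function.comp_apply] at hx hx'
      obtain ⟨a, _, rfl⟩ := hx
      rcases hx' with ⟨b, _, hb⟩ | ⟨b, _, hb⟩
      · simp only [Sym2.eq_iff] at hb
        omega
      · simp only [Sym2.eq_iff] at hb
        omega
    · exact h.1.map (fun a b hab => by simp only [Function.comp_apply, Sym2.eq_iff] at hab; omega)
    · intro x hx hx'
      simp only [List.mem_map, List.mem_append, Function.comp_apply] at hx hx'
      obtain ⟨b, _, hb⟩ := hx'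
      subst hb
      rcases hx with ⟨b, _, hb⟩ | ⟨b, _, hb⟩ | ⟨b, _, hb⟩
      · simp only [Sym2.eq_iff] at hb
        omega
      · simp only [Sym2.eq_iff] at hb
        omega
      · simp only [Sym2.eq_iff] at hb
        omega

theorem cut_append (E E' : List (ℕ × ℕ)) (X : Finset ℕ) :
    cut (E ++ E') X = cut E X + cut E' X := by
  unfold cut
  rw [List.countP_append]

/-- the vertices whose copies belong to `X` -/
theorem key1 (X : Finset ℕ) (h0 : 0 ∈ X) (L : List (ℕ × ℕ)) :
    L.countP (fun p => decide (3 * p.1 + 2 ∉ X)) ≤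
      cut (L.map (fun p => (3 * p.2 + 1, 0))) X + cut (L.map (fun p => (3 * p.2 + 1, 3 * p.1 + 2))) X := by
  induction L with
  | nil => simp
  | cons p L ih =>
    unfold cut at *
    simp only [List.map_cons, List.countP_cons, h0, iff_true] at ih ⊢
    by_cases h1 : 3 * p.2 + 1 ∈ X <;> by_cases h2 : 3 * p.1 + 2 ∈ X <;> simp [h1, h2] at ih ⊢ <;> omega

theorem key1' (X : Finset ℕ) (h0 : 0 ∈ X) (L : List (ℕ × ℕ)) (hL : ∀ p ∈ L, 3 * p.2 + 1 ∈ X) :
    cut (L.map (fun p => (3 * p.2 + 1, 0))) X + cut (L.map (fun p => (3 * p.2 + 1, 3 * p.1 + 2))) X =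
      L.countP (fun p => decide (3 * p.1 + 2 ∉ X)) := by
  induction L with
  | nil => simp [cut]
  | cons p L ih =>
    have h1 := hL p (List.mem_cons_self ..)
    have ih := ih (fun q hq => hL q (List.mem_cons_of_mem _ hq))
    unfold cut at *
    simp only [List.map_cons, List.countP_cons, h0, iff_true] at ih ⊢
    by_cases h2 : 3 * p.1 + 2 ∈ X <;> simp [h1, h2] at ih ⊢ <;> omega

theorem countP_zipIdx_fst (q : ℕ → Bool) (L : List ℕ) (n : ℕ) :
    (L.zipIdx n).countP (fun p => q p.1) = L.countP q := by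
  have h : (L.zipIdx n).map Prod.fst = L := by simp
  conv_rhs => rw [← h, List.countP_map]
  rfl

theorem key2 (X : Finset ℕ) (E : List (ℕ × ℕ)) :
    (ends E).countP (fun p => decide (3 * p.1 + 2 ∉ X)) =
      (E.map (fun e => (if 3 * e.1 + 2 ∈ X then 0 else 1) + (if 3 * e.2 + 2 ∈ X then 0 else 1))).sum := by
  unfold ends
  rw [countP_zipIdx_fst (fun x => decide (3 * x + 2 ∉ X))]
  induction E with
  | nil => rfl
  | cons e E ih =>
    rw [List.flatMap_cons, List.countP_append, ih]
    simp only [List.map_cons, List.sum_cons]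
    congr 1
    by_cases h1 : 3 * e.1 + 2 ∈ X <;> by_cases h2 : 3 * e.2 + 2 ∈ X <;> simp [h1, h2]

theorem key3 (X U : Finset ℕ) (E : List (ℕ × ℕ)) (hU : ∀ e ∈ E, (e.1 ∈ U ↔ 3 * e.1 + 2 ∈ X) ∧
    (e.2 ∈ U ↔ 3 * e.2 + 2 ∈ X)) :
    (E.map (fun e => (if 3 * e.1 + 2 ∈ X then 0 else 1) + (if 3 * e.2 + 2 ∈ X then 0 else 1))).sum +
      cut (R3 E) X + 2 * inside E U = 2 * E.length := by
  induction E with
  | nil => simp [R3, cut, inside]
  | cons e E ih =>
    have ih := ih (fun e he => hU e (List.mem_cons_of_mem _ he))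
    have h1 := hU e (List.mem_cons_self ..)
    unfold cut R3 inside at *
    simp only [List.map_cons, List.countP_cons, List.sum_cons, List.length_cons, h1] at ih ⊢
    by_cases h1 : 3 * e.1 + 2 ∈ X <;> by_cases h2 : 3 * e.2 + 2 ∈ X <;> simp [h1, h2] at ih ⊢ <;>
      omega

theorem cut_B1 {V : List ℕ} (hV : V.Nodup) (X U : Finset ℕ) (h3 : 3 ∉ X)
    (hU : ∀ v, v ∈ U ↔ v ∈ V ∧ 3 * v + 2 ∈ X) : cut (B1 V) X = U.card := by
  unfold cut B1
  rw [List.countP_map, List.countP_eq_length_filter, ← List.toFinset_card_of_nodup (hV.filter _)]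
  congr 1
  ext v
  simp only [List.mem_toFinset, List.mem_filter, Function.comp_apply, decide_eq_true_eq, h3,
    iff_false, not_not, hU]

theorem choose_eq (k : ℕ) : k.choose 2 = k * (k - 1) / 2 := Nat.choose_two_right k

/-- correctness of the reduction -/
theorem red_correct (I : (List ℕ × List (ℕ × ℕ)) × ℕ) (hI : IsGraph I.1.1 I.1.2 ∧ 2 ≤ I.2) :
    CLIQUE I ↔ STCut (red I) := by
  obtain ⟨⟨V, E⟩, k⟩ := I
  simp only at hI
  obtain ⟨hG, hk⟩ := hI
  unfold CLIQUE red
  simp only
  rw [hasClique_iff hG hk, ← choose_eq]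
  split_ifs with hm
  · unfold STCut
    simp only
    constructor
    · rintro ⟨-, U, hUV, hUc, hin⟩
      refine ⟨isGraph_W hG, by simp [W], by simp [W], by norm_num, ?_⟩
      set X : Finset ℕ := insert 0 ((U.image (fun x => 3 * x + 2)) ∪
        (((ends E).map (fun p => 3 * p.2 + 1)).toFinset)) with hX
      have hX0 : 0 ∈ X := by simp [hX]
      have hX3 : 3 ∉ X := by
        rw [hX]
        simp only [Finset.mem_insert, Finset.mem_union, Finset.mem_image, List.mem_toFinset,
          List.mem_map, not_or, not_exists, not_and]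
        exact ⟨by omega, fun x _ => by omega, fun x _ => by omega⟩
      have hX2 : ∀ v, 3 * v + 2 ∈ X ↔ v ∈ U := by
        intro v
        rw [hX]
        simp only [Finset.mem_insert, Finset.mem_union, Finset.mem_image, List.mem_toFinset,
          List.mem_map]
        constructor
        · rintro (h | ⟨x, hx, h⟩ | ⟨x, _, h⟩)
          · omega
          · obtain rfl : x = v := by omega
            exact hx
          · omega
        · intro h
          exact Or.inr (Or.inl ⟨v, h, rfl⟩)
      have hX1 : ∀ p ∈ ends E, 3 * p.2 + 1 ∈ X := by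
        intro p hp
        rw [hX]
        simp only [Finset.mem_insert, Finset.mem_union, Finset.mem_image, List.mem_toFinset,
          List.mem_map]
        exact Or.inr (Or.inr ⟨p, hp, rfl⟩)
      refine ⟨X, ?_, hX0, hX3, ?_, ?_⟩
      · intro v hv
        rw [hX] at hv
        simp only [Finset.mem_insert, Finset.mem_union, Finset.mem_image, List.mem_toFinset,
          List.mem_map] at hv
        unfold W
        simp only [List.mem_cons, List.mem_append, List.mem_map]
        rcases hv with h | ⟨x, hx, rfl⟩ | h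
        · exact Or.inl h
        · exact Or.inr (Or.inr (Or.inl ⟨x, hUV x hx, rfl⟩))
        · exact Or.inr (Or.inr (Or.inr h))
      · rw [cut_append, cut_append]
        have e1 := key1' X hX0 (ends E) hX1
        have e2 := key2 X E
        have e3 := key3 X U E (fun e _ => ⟨(hX2 _).symm, (hX2 _).symm⟩)
        have e4 : cut (R1 E) X + cut (R2 E) X = _ := e1
        omega
      · rw [cut_B1 hG.1 X U hX3 (fun v => by rw [hX2]; exact ⟨fun h => ⟨hUV v h, h⟩, fun h => h.2⟩)]
        exact hUc
    · rintro ⟨-, -, -, -, X, hXW, hX0, hX3, hR, hB⟩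
      refine ⟨hG, V.toFinset.filter (fun v => 3 * v + 2 ∈ X), ?_, ?_, ?_⟩
      · intro v hv
        simp only [Finset.mem_filter, List.mem_toFinset] at hv
        exact hv.1
      · rw [← cut_B1 hG.1 X _ hX3 (fun v => by simp only [Finset.mem_filter, List.mem_toFinset])]
        exact hB
      · rw [cut_append, cut_append] at hR
        have e1 := key1 X hX0 (ends E)
        have e2 := key2 X E
        have e3 := key3 X (V.toFinset.filter (fun v => 3 * v + 2 ∈ X)) E (fun e he => by
          have := hG.2.1 e he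
          simp only [Finset.mem_filter, List.mem_toFinset, this, true_and, and_self])
        have e4 : (ends E).countP (fun p => decide (3 * p.1 + 2 ∉ X)) ≤ cut (R1 E) X + cut (R2 E) X := e1
        omega
  · unfold STCut
    simp only
    constructor
    · rintro ⟨-, U, hUV, hUc, hin⟩
      exfalso
      apply hm
      refine hin.trans ?_
      unfold inside
      exact List.countP_le_length
    · rintro ⟨-, -, -, -, X, -, h0, h3, hR, -⟩
      exfalso
      simp [cut, h0, h3] at hR

theorem ends_poly {α : Type} [TEnc α] {E : α → List (ℕ × ℕ)} (hE : Poly E) :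
    Poly (fun a => ends (E a)) := by
  unfold ends
  fun_prop

attribute [local fun_prop] ends_poly

theorem red_poly : Poly red := by
  unfold red W R1 R2 R3 B1
  fun_prop

theorem hard : NPHardP STCut :=
  (hardPr_CLIQUE.trans (Pr' := fun _ => True) red_poly (fun _ _ => trivial) red_correct).toHardI.toNPHardP

end Pool.Agent.X130.RB
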