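import Mathlib
import Pool.Agent.X130.RB.Und
import Pool.Agent.Y592.OP.NPMem

set_option autoImplicit false

/-!
# The undirected problem is in NP
-/

namespace Pool.Agent.X130.RB

open Pool.Agent.NPC Pool.Agent.NPC.H634R2

theorem pp_countP {α β : Type} [TEnc α] [TEnc β] {l : α → List β} {r : α → β → Prop}
    {n : α → ℕ} (hl : NPC.Poly l) (hr : PP (fun x : α × β => r x.1 x.2)) (hn : NPC.Poly n)
    [inst : ∀ a x, Decidable (r a x)] :
    PP (fun a => (l a).countP (fun x => decide (r a x)) ≤ n a) := by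
  refine (PP.le (NPC.Poly.length (PP.filter hl hr)) hn).congr fun a => ?_
  rw [List.countP_eq_length_filter]

theorem pp_isGraph {α : Type} [TEnc α] {V : α → List ℕ} {E : α → List (ℕ × ℕ)} (hV : NPC.Poly V)
    (hE : NPC.Poly E) : PP (fun a => IsGraph (V a) (E a)) := by
  unfold IsGraph
  refine PP.and (Y592.OP.pp_nodup hV) (PP.and ?_ ?_)
  · refine PP.ball hE ?_
    exact PP.and (PP.mem (by fun_prop) (by fun_prop)) (PP.and (PP.mem (by fun_prop) (by fun_prop))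
      (PP.ne (by fun_prop) (by fun_prop)))
  · have h : PP (fun a => (E a).Pairwise (fun e f => ¬ ((e.1 = f.1 ∧ e.2 = f.2) ∨ (e.1 = f.2 ∧ e.2 = f.1)))) := by
      refine Y592.OP.pp_pairwise hE ?_
      exact PP.not (PP.or (PP.and (PP.eq (by fun_prop) (by fun_prop)) (PP.eq (by fun_prop) (by fun_prop)))
        (PP.and (PP.eq (by fun_prop) (by fun_prop)) (PP.eq (by fun_prop) (by fun_prop))))
    refine h.congr fun a => ?_
    rw [List.Nodup, List.pairwise_map]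
    exact List.Pairwise.iff (fun e f => by simp only [ne_eq, Sym2.eq_iff])

/-- A list without repetitions from `V` is a short certificate. -/
theorem sz_cert {w V : List ℕ} (hw : w.Nodup) (h : ∀ v ∈ w, v ∈ V) {s : ℕ} (hs : sz V ≤ s) :
    sz w ≤ s * (s + 1) + 1 := by
  have h1 : w.length ≤ V.length := (hw.subperm h).length_le
  have h2 := length_lt_sz V
  have h3 := sz_le_length_mul w s fun v hv => by
    have := sz_le_of_mem (h v hv)
    omega
  have h4 : w.length * (s + 1) ≤ s * (s + 1) := Nat.mul_le_mul_right _ (by omega)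
  omega

/-- membership in `NP`, undirected -/
theorem mem : InNPP STCut := by
  have hPP : PP (fun x : STInst × List ℕ =>
      IsGraph x.1.1.1 (x.1.1.2.1 ++ x.1.1.2.2) ∧ x.1.2.1.1 ∈ x.1.1.1 ∧ x.1.2.1.2 ∈ x.1.1.1 ∧
      x.1.2.1.1 ≠ x.1.2.1.2 ∧ x.2.Nodup ∧ (∀ v ∈ x.2, v ∈ x.1.1.1) ∧ x.1.2.1.1 ∈ x.2 ∧
      x.1.2.1.2 ∉ x.2 ∧
      x.1.1.2.1.countP (fun e => decide (¬ (e.1 ∈ x.2 ↔ e.2 ∈ x.2))) ≤ x.1.2.2.1 ∧
      x.1.1.2.2.countP (fun e => decide (¬ (e.1 ∈ x.2 ↔ e.2 ∈ x.2))) ≤ x.1.2.2.2) := by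
    refine PP.and (pp_isGraph (by fun_prop) (by fun_prop)) (PP.and (PP.mem (by fun_prop) (by fun_prop))
      (PP.and (PP.mem (by fun_prop) (by fun_prop)) (PP.and (PP.ne (by fun_prop) (by fun_prop))
      (PP.and (Y592.OP.pp_nodup (by fun_prop)) (PP.and ?_ (PP.and (PP.mem (by fun_prop) (by fun_prop))
      (PP.and (PP.not (PP.mem (by fun_prop) (by fun_prop))) (PP.and ?_ ?_))))))))
    · exact PP.ball (by fun_prop) (PP.mem (by fun_prop) (by fun_prop))
    · refine pp_countP (r := fun (x : STInst × List ℕ) (e : ℕ × ℕ) => ¬ (e.1 ∈ x.2 ↔ e.2 ∈ x.2))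
        (by fun_prop) ?_ (by fun_prop)
      refine PP.congr (p := fun y : (STInst × List ℕ) × (ℕ × ℕ) =>
        (y.2.1 ∈ y.1.2 ∧ ¬ y.2.2 ∈ y.1.2) ∨ (¬ y.2.1 ∈ y.1.2 ∧ y.2.2 ∈ y.1.2)) ?_ (fun y => by tauto)
      exact PP.or (PP.and (PP.mem (by fun_prop) (by fun_prop)) (PP.not (PP.mem (by fun_prop) (by fun_prop))))
        (PP.and (PP.not (PP.mem (by fun_prop) (by fun_prop))) (PP.mem (by fun_prop) (by fun_prop)))
    · refine pp_countP (r := fun (x : STInst × List ℕ) (e : ℕ × ℕ) => ¬ (e.1 ∈ x.2 ↔ e.2 ∈ x.2))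
        (by fun_prop) ?_ (by fun_prop)
      refine PP.congr (p := fun y : (STInst × List ℕ) × (ℕ × ℕ) =>
        (y.2.1 ∈ y.1.2 ∧ ¬ y.2.2 ∈ y.1.2) ∨ (¬ y.2.1 ∈ y.1.2 ∧ y.2.2 ∈ y.1.2)) ?_ (fun y => by tauto)
      exact PP.or (PP.and (PP.mem (by fun_prop) (by fun_prop)) (PP.not (PP.mem (by fun_prop) (by fun_prop))))
        (PP.and (PP.not (PP.mem (by fun_prop) (by fun_prop))) (PP.mem (by fun_prop) (by fun_prop)))
  obtain ⟨b, hb, hb'⟩ := hPP
  refine inNPP_of (β := List ℕ) hb (Polynomial.X * (Polynomial.X + 1) + 1) (fun I => ⟨?_, ?_⟩)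
  · rintro ⟨h1, h2, h3, h4, X, h5, h6, h7, h8, h9⟩
    refine ⟨X.toList, ?_, (hb' (I, X.toList)).2 ⟨h1, h2, h3, h4, X.nodup_toList, ?_, ?_, ?_, ?_, ?_⟩⟩
    · simp only [Polynomial.eval_add, Polynomial.eval_mul, Polynomial.eval_X, Polynomial.eval_one]
      refine sz_cert (V := I.1.1) X.nodup_toList (fun v hv => h5 v (Finset.mem_toList.1 hv)) ?_
      obtain ⟨⟨V, R, B⟩, st, rb⟩ := I
      simp only [sz_pair]
      omega
    · exact fun v hv => h5 v (Finset.mem_toList.1 hv)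
    · exact Finset.mem_toList.2 h6
    · exact fun h => h7 (Finset.mem_toList.1 h)
    · simpa only [cut, Finset.mem_toList] using h8
    · simpa only [cut, Finset.mem_toList] using h9
  · rintro ⟨w, -, hw⟩
    obtain ⟨h1, h2, h3, h4, -, h5, h6, h7, h8, h9⟩ := (hb' (I, w)).1 hw
    refine ⟨h1, h2, h3, h4, w.toFinset, ?_, ?_, ?_, ?_, ?_⟩
    · exact fun v hv => h5 v (List.mem_toFinset.1 hv)
    · exact List.mem_toFinset.2 h6
    · exact fun h => h7 (List.mem_toFinset.1 h)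
    · simpa only [cut, List.mem_toFinset] using h8
    · simpa only [cut, List.mem_toFinset] using h9

end Pool.Agent.X130.RB
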