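import Mathlib
import Pool.Agent.X130.RB.Defs
import Pool.Agent.H634R2.Clique
import Pool.Agent.X130.RB.UndNP

set_option autoImplicit false

/-!
# The directed problem: reduction from CLIQUE
-/

namespace Pool.Agent.X130.RB

open Pool.Agent.NPC Pool.Agent.NPC.H634R2

/-- complete digraph on the numbers `4 i + c`, `i < n` -/
def clq (c n : ℕ) : List (ℕ × ℕ) :=
  (List.range n).flatMap (fun i => ((List.range n).filter (fun j => decide (i ≠ j))).map
    (fun j => (4 * i + c, 4 * j + c)))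

/-- inner vertices -/
def Mid (V : List ℕ) (E : List (ℕ × ℕ)) : List ℕ :=
  V.map (fun v => 4 * v + 2) ++ E.zipIdx.map (fun p => 4 * p.2 + 3)

/-- `n` arcs from every vertex of `L` to the numbers `4 i` -/
def toS (L : List ℕ) (n : ℕ) : List (ℕ × ℕ) :=
  L.flatMap (fun x => (List.range n).map (fun i => (x, 4 * i)))

/-- `n` arcs to every vertex of `L` from the numbers `4 i + 1` -/
def ofT (L : List ℕ) (n : ℕ) : List (ℕ × ℕ) :=
  L.flatMap (fun x => (List.range n).map (fun i => (4 * i + 1, x)))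

/-- arcs from `0` to the edge vertices -/
def src (E : List (ℕ × ℕ)) : List (ℕ × ℕ) := E.zipIdx.map (fun p => (0, 4 * p.2 + 3))

/-- arcs from the edge vertices to their ends -/
def inc (E : List (ℕ × ℕ)) : List (ℕ × ℕ) :=
  E.zipIdx.flatMap (fun p => [(4 * p.2 + 3, 4 * p.1.1 + 2), (4 * p.2 + 3, 4 * p.1.2 + 2)])

/-- blue arcs to `1` -/
def blu (V : List ℕ) : List (ℕ × ℕ) := V.map (fun v => (4 * v + 2, 1))

/-- terminals `4 i + c` -/
def Ter (c n : ℕ) : List ℕ := (List.range n).map (fun i => 4 * i + c)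

/-- all vertices -/
def DV (V : List ℕ) (E : List (ℕ × ℕ)) (n : ℕ) : List ℕ :=
  Ter 0 n ++ (Ter 1 n ++ Mid V E)

/-- all red arcs -/
def DR (V : List ℕ) (E : List (ℕ × ℕ)) (n : ℕ) : List (ℕ × ℕ) :=
  clq 0 n ++ (clq 1 n ++ (toS (Ter 1 n ++ Mid V E) n ++ (ofT (Mid V E) n ++ (src E ++ inc E))))

/-- the reduction -/
def dred (I : (List ℕ × List (ℕ × ℕ)) × ℕ) : DInst :=
  if I.2 * (I.2 - 1) / 2 ≤ I.1.2.length then
    ((DV I.1.1 I.1.2 (I.1.2.length + 2), DR I.1.1 I.1.2 (I.1.2.length + 2), blu I.1.1),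
      (I.1.2.length - I.2 * (I.2 - 1) / 2, I.2))
  else (([0, 1], [(0, 1), (1, 0)], []), (0, 0))

theorem outCut_append (A B : List (ℕ × ℕ)) (X : Finset ℕ) :
    outCut (A ++ B) X = outCut A X + outCut B X := by
  unfold outCut
  rw [List.countP_append]

theorem outCut_ge {A L : List (ℕ × ℕ)} {X : Finset ℕ} (hL : L.Nodup)
    (h : ∀ a ∈ L, a ∈ A ∧ a.1 ∈ X ∧ a.2 ∉ X) : L.length ≤ outCut A X := by
  unfold outCut
  rw [List.countP_eq_length_filter]
  refine (hL.subperm fun a ha => ?_).length_le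
  rw [List.mem_filter]
  have := h a ha
  exact ⟨this.1, by simpa using this.2⟩

theorem mem_clq {c n : ℕ} {a : ℕ × ℕ} : a ∈ clq c n ↔ ∃ i j, i < n ∧ j < n ∧ i ≠ j ∧
    a = (4 * i + c, 4 * j + c) := by
  unfold clq
  simp only [List.mem_flatMap, List.mem_range, List.mem_map, List.mem_filter, decide_eq_true_eq]
  constructor
  · rintro ⟨i, hi, j, ⟨hj, hij⟩, rfl⟩
    exact ⟨i, j, hi, hj, hij, rfl⟩
  · rintro ⟨i, j, hi, hj, hij, rfl⟩
    exact ⟨i, hi, j, ⟨hj, hij⟩, rfl⟩

/-- A complete digraph is expensive to cut. -/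
theorem clq_cut {c n : ℕ} {X : Finset ℕ} {i j : ℕ} (hi : i < n) (hj : j < n) (hiX : 4 * i + c ∈ X)
    (hjX : 4 * j + c ∉ X) : n - 1 ≤ outCut (clq c n) X := by
  have h1 : (((List.range n).filter (fun l => decide (l ≠ j))).map (fun l =>
      if 4 * l + c ∈ X then (4 * l + c, 4 * j + c) else (4 * i + c, 4 * l + c))).length = n - 1 := by
    rw [List.length_map]
    have h2 := List.countP_eq_length_filter (p := fun l => decide (l ≠ j)) (l := List.range n)
    rw [← h2]
    have h3 := List.length_eq_countP_add_countP (fun l => decide (l ≠ j)) (l := List.range n)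
    have h4 : (List.range n).countP (fun l => !decide (l ≠ j)) = 1 := by
      have h5 : (fun l => !decide (l ≠ j)) = (fun l => l == j) := by
        funext l
        by_cases h : l = j <;> simp [h]
      rw [h5]
      have h6 : List.count j (List.range n) = 1 :=
        List.count_eq_one_of_mem List.nodup_range (List.mem_range.2 hj)
      exact h6
    rw [List.length_range] at h3
    simp only [Bool.not_eq_true] at h3
    have h7 : (List.range n).countP (fun l => decide (decide (l ≠ j) = false)) =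
        (List.range n).countP (fun l => !decide (l ≠ j)) := by
      congr 1
      funext l
      by_cases h : l = j <;> simp [h]
    omega
  rw [← h1]
  refine outCut_ge ?_ ?_
  · refine List.Nodup.map_on ?_ (List.nodup_range.filter _)
    intro l hl l' hl' h
    simp only [List.mem_filter, List.mem_range, decide_eq_true_eq] at hl hl'
    split_ifs at h with g1 g2 g2 <;> simp only [Prod.mk.injEq] at h <;> omega
  · intro a ha
    simp only [List.mem_map, List.mem_filter, List.mem_range, decide_eq_true_eq] at ha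
    obtain ⟨l, ⟨hl, hlj⟩, rfl⟩ := ha
    split_ifs with g1
    · exact ⟨mem_clq.2 ⟨l, j, hl, hj, hlj, rfl⟩, g1, hjX⟩
    · refine ⟨mem_clq.2 ⟨i, l, hi, hl, ?_, rfl⟩, hiX, g1⟩
      rintro rfl
      exact g1 hiX

theorem toS_cut {L : List ℕ} {n x : ℕ} {X : Finset ℕ} (hx : x ∈ L) (hxX : x ∈ X)
    (h : ∀ i < n, 4 * i ∉ X) : n ≤ outCut (toS L n) X := by
  have h1 : ((List.range n).map (fun i => (x, 4 * i))).length = n := by simp
  rw [← h1]
  refine outCut_ge ?_ ?_
  · exact List.nodup_range.map (fun a b h => by simp only [Prod.mk.injEq] at h; omega)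
  · intro a ha
    simp only [List.mem_map, List.mem_range] at ha
    obtain ⟨i, hi, rfl⟩ := ha
    refine ⟨?_, hxX, h i (by simpa using hi)⟩
    unfold toS
    simp only [List.mem_flatMap, List.mem_map, List.mem_range]
    exact ⟨x, hx, i, by simpa using hi, rfl⟩

theorem ofT_cut {L : List ℕ} {n x : ℕ} {X : Finset ℕ} (hx : x ∈ L) (hxX : x ∉ X)
    (h : ∀ i < n, 4 * i + 1 ∈ X) : n ≤ outCut (ofT L n) X := by
  have h1 : ((List.range n).map (fun i => (4 * i + 1, x))).length = n := by simp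
  rw [← h1]
  refine outCut_ge ?_ ?_
  · exact List.nodup_range.map (fun a b h => by simp only [Prod.mk.injEq] at h; omega)
  · intro a ha
    simp only [List.mem_map, List.mem_range] at ha
    obtain ⟨i, hi, rfl⟩ := ha
    refine ⟨?_, h i (by simpa using hi), hxX⟩
    unfold ofT
    simp only [List.mem_flatMap, List.mem_map, List.mem_range]
    exact ⟨x, hx, i, by simpa using hi, rfl⟩

theorem src_inc_cut (X U : Finset ℕ) (E : List ((ℕ × ℕ) × ℕ)) (h0 : 0 ∈ X)
    (hU : ∀ e ∈ E, (e.1.1 ∈ U ↔ 4 * e.1.1 + 2 ∈ X) ∧ (e.1.2 ∈ U ↔ 4 * e.1.2 + 2 ∈ X)) :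
    E.length ≤ E.countP (fun e => decide (e.1.1 ∈ U) && decide (e.1.2 ∈ U)) +
      outCut (E.map (fun p => (0, 4 * p.2 + 3))) X +
      outCut (E.flatMap (fun p => [(4 * p.2 + 3, 4 * p.1.1 + 2), (4 * p.2 + 3, 4 * p.1.2 + 2)])) X := by
  induction E with
  | nil => simp
  | cons e E ih =>
    have ih := ih (fun e he => hU e (List.mem_cons_of_mem _ he))
    have h1 := hU e (List.mem_cons_self ..)
    unfold outCut at *
    simp only [List.map_cons, List.countP_cons, List.length_cons, List.flatMap_cons,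
      List.countP_append, List.countP_nil, h1, h0] at ih ⊢
    by_cases g1 : 4 * e.1.1 + 2 ∈ X <;> by_cases g2 : 4 * e.1.2 + 2 ∈ X <;>
      by_cases g3 : 4 * e.2 + 3 ∈ X <;> simp [g1, g2, g3] at ih ⊢ <;> omega

theorem src_inc_cut' (X U : Finset ℕ) (E : List ((ℕ × ℕ) × ℕ)) (h0 : 0 ∈ X)
    (hU : ∀ e ∈ E, (4 * e.1.1 + 2 ∈ X ↔ e.1.1 ∈ U) ∧ (4 * e.1.2 + 2 ∈ X ↔ e.1.2 ∈ U) ∧
      (4 * e.2 + 3 ∈ X ↔ e.1.1 ∈ U ∧ e.1.2 ∈ U)) :
    E.length = E.countP (fun e => decide (e.1.1 ∈ U) && decide (e.1.2 ∈ U)) +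
      outCut (E.map (fun p => (0, 4 * p.2 + 3))) X +
      outCut (E.flatMap (fun p => [(4 * p.2 + 3, 4 * p.1.1 + 2), (4 * p.2 + 3, 4 * p.1.2 + 2)])) X := by
  induction E with
  | nil => simp [outCut]
  | cons e E ih =>
    have ih := ih (fun e he => hU e (List.mem_cons_of_mem _ he))
    have h1 := hU e (List.mem_cons_self ..)
    unfold outCut at *
    simp only [List.map_cons, List.countP_cons, List.length_cons, List.flatMap_cons,
      List.countP_append, List.countP_nil, h1, h0] at ih ⊢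
    by_cases g1 : e.1.1 ∈ U <;> by_cases g2 : e.1.2 ∈ U <;>
      simp [g1, g2] at ih ⊢ <;> omega

theorem zipIdx_inside (E : List (ℕ × ℕ)) (U : Finset ℕ) :
    E.zipIdx.countP (fun e => decide (e.1.1 ∈ U) && decide (e.1.2 ∈ U)) = inside E U := by
  unfold inside
  have h : (E.zipIdx).map Prod.fst = E := by simp
  conv_rhs => rw [← h, List.countP_map]
  rfl

theorem outCut_blu {V : List ℕ} (hV : V.Nodup) (X U : Finset ℕ) (h1 : 1 ∉ X)
    (hU : ∀ v, v ∈ U ↔ v ∈ V ∧ 4 * v + 2 ∈ X) : outCut (blu V) X = U.card := by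
  unfold outCut blu
  rw [List.countP_map, List.countP_eq_length_filter, ← List.toFinset_card_of_nodup (hV.filter _)]
  congr 1
  ext v
  simp only [List.mem_toFinset, List.mem_filter, Function.comp_apply, decide_eq_true_eq, h1,
    not_false_eq_true, and_true, hU]

end Pool.Agent.X130.RB
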