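import Mathlib
import Pool.Agent.X130.RB.Dir

set_option autoImplicit false

/-!
# The directed problem: correctness of the reduction, membership in NP
-/

namespace Pool.Agent.X130.RB

open Pool.Agent.NPC Pool.Agent.NPC.H634R2

theorem tag_clq {c n : ℕ} (hc : c < 4) {a : ℕ × ℕ} (ha : a ∈ clq c n) : a.1 % 4 = c ∧ a.2 % 4 = c := by
  obtain ⟨i, j, _, _, _, rfl⟩ := mem_clq.1 ha
  simp only
  omega

theorem nodup_clq (c n : ℕ) : (clq c n).Nodup := by
  unfold clq
  rw [List.nodup_flatMap]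
  refine ⟨fun i _ => ?_, ?_⟩
  · exact (List.nodup_range.filter _).map (fun a b h => by simp only [Prod.mk.injEq] at h; omega)
  · refine List.nodup_range.imp ?_
    intro i j hij a ha hb
    simp only [List.mem_map] at ha hb
    obtain ⟨x, _, rfl⟩ := ha
    obtain ⟨y, _, hy⟩ := hb
    simp only [Prod.mk.injEq] at hy
    omega

theorem mem_toS {L : List ℕ} {n : ℕ} {a : ℕ × ℕ} : a ∈ toS L n ↔ a.1 ∈ L ∧ ∃ i < n, a.2 = 4 * i := by
  unfold toS
  simp only [List.mem_flatMap, List.mem_map, List.mem_range]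
  constructor
  · rintro ⟨x, hx, i, hi, rfl⟩
    exact ⟨hx, i, hi, rfl⟩
  · rintro ⟨hx, i, hi, h⟩
    exact ⟨a.1, hx, i, hi, Prod.ext rfl h.symm⟩

theorem mem_ofT {L : List ℕ} {n : ℕ} {a : ℕ × ℕ} :
    a ∈ ofT L n ↔ a.2 ∈ L ∧ ∃ i < n, a.1 = 4 * i + 1 := by
  unfold ofT
  simp only [List.mem_flatMap, List.mem_map, List.mem_range]
  constructor
  · rintro ⟨x, hx, i, hi, rfl⟩
    exact ⟨hx, i, hi, rfl⟩
  · rintro ⟨hx, i, hi, h⟩
    exact ⟨a.2, hx, i, hi, Prod.ext h.symm rfl⟩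

theorem nodup_toS {L : List ℕ} (hL : L.Nodup) (n : ℕ) : (toS L n).Nodup := by
  unfold toS
  rw [List.nodup_flatMap]
  refine ⟨fun i _ => ?_, ?_⟩
  · exact List.nodup_range.map (fun a b h => by simp only [Prod.mk.injEq] at h; omega)
  · refine hL.imp ?_
    intro i j hij a ha hb
    simp only [List.mem_map] at ha hb
    obtain ⟨x, _, rfl⟩ := ha
    obtain ⟨y, _, hy⟩ := hb
    simp only [Prod.mk.injEq] at hy
    omega

theorem nodup_ofT {L : List ℕ} (hL : L.Nodup) (n : ℕ) : (ofT L n).Nodup := by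
  unfold ofT
  rw [List.nodup_flatMap]
  refine ⟨fun i _ => ?_, ?_⟩
  · exact List.nodup_range.map (fun a b h => by simp only [Prod.mk.injEq] at h; omega)
  · refine hL.imp ?_
    intro i j hij a ha hb
    simp only [List.mem_map] at ha hb
    obtain ⟨x, _, rfl⟩ := ha
    obtain ⟨y, _, hy⟩ := hb
    simp only [Prod.mk.injEq] at hy
    omega

theorem mem_Mid {V : List ℕ} {E : List (ℕ × ℕ)} {x : ℕ} :
    x ∈ Mid V E ↔ (∃ v ∈ V, x = 4 * v + 2) ∨ ∃ p ∈ E.zipIdx, x = 4 * p.2 + 3 := by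
  unfold Mid
  simp only [List.mem_append, List.mem_map, eq_comm]

theorem mem_Ter {c n x : ℕ} : x ∈ Ter c n ↔ ∃ i < n, x = 4 * i + c := by
  unfold Ter
  simp only [List.mem_map, List.mem_range, eq_comm]

theorem mem_src {E : List (ℕ × ℕ)} {a : ℕ × ℕ} :
    a ∈ src E ↔ a.1 = 0 ∧ ∃ p ∈ E.zipIdx, a.2 = 4 * p.2 + 3 := by
  unfold src
  simp only [List.mem_map]
  constructor
  · rintro ⟨p, hp, rfl⟩
    exact ⟨rfl, p, hp, rfl⟩
  · rintro ⟨h0, p, hp, h⟩
    exact ⟨p, hp, Prod.ext h0.symm h.symm⟩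

theorem mem_inc {E : List (ℕ × ℕ)} {a : ℕ × ℕ} :
    a ∈ inc E ↔ ∃ p ∈ E.zipIdx, a.1 = 4 * p.2 + 3 ∧ (a.2 = 4 * p.1.1 + 2 ∨ a.2 = 4 * p.1.2 + 2) := by
  unfold inc
  simp only [List.mem_flatMap, List.mem_cons, List.not_mem_nil, or_false]
  constructor
  · rintro ⟨p, hp, rfl | rfl⟩
    · exact ⟨p, hp, rfl, Or.inl rfl⟩
    · exact ⟨p, hp, rfl, Or.inr rfl⟩
  · rintro ⟨p, hp, h1, h2 | h2⟩
    · exact ⟨p, hp, Or.inl (Prod.ext h1 h2)⟩
    · exact ⟨p, hp, Or.inr (Prod.ext h1 h2)⟩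

theorem mem_blu {V : List ℕ} {a : ℕ × ℕ} : a ∈ blu V ↔ a.2 = 1 ∧ ∃ v ∈ V, a.1 = 4 * v + 2 := by
  unfold blu
  simp only [List.mem_map]
  constructor
  · rintro ⟨p, hp, rfl⟩
    exact ⟨rfl, p, hp, rfl⟩
  · rintro ⟨h0, p, hp, h⟩
    exact ⟨p, hp, Prod.ext h.symm h0.symm⟩

theorem zipIdx_snd_nodup (E : List (ℕ × ℕ)) : (E.zipIdx.map Prod.snd).Nodup := by
  rw [List.zipIdx_map_snd]
  exact List.nodup_range'

theorem zipIdx_nodup' (E : List (ℕ × ℕ)) : E.zipIdx.Nodup := List.Nodup.of_map _ (zipIdx_snd_nodup E)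

theorem zipIdx_inj {E : List (ℕ × ℕ)} {p q : (ℕ × ℕ) × ℕ} (hp : p ∈ E.zipIdx) (hq : q ∈ E.zipIdx)
    (h : p.2 = q.2) : p = q := List.inj_on_of_nodup_map (zipIdx_snd_nodup E) hp hq h

theorem zipIdx_fst {E : List (ℕ × ℕ)} {p : (ℕ × ℕ) × ℕ} (hp : p ∈ E.zipIdx) : p.1 ∈ E := by
  obtain ⟨x, i⟩ := p
  exact List.mem_of_getElem? (List.mem_zipIdx_iff_getElem?.1 hp)

theorem nodup_Mid {V : List ℕ} {E : List (ℕ × ℕ)} (h : IsGraph V E) : (Mid V E).Nodup := by
  unfold Mid
  rw [List.nodup_append']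
  refine ⟨h.1.map (fun a b (hab : 4 * a + 2 = 4 * b + 2) => by omega), ?_, ?_⟩
  · have h2 := (zipIdx_snd_nodup E).map (f := fun j : ℕ => 4 * j + 3)
      (fun a b (hab : 4 * a + 3 = 4 * b + 3) => by omega)
    rwa [List.map_map] at h2
  · intro x hx hx'
    rw [List.mem_map] at hx hx'
    obtain ⟨a, _, ha⟩ := hx
    obtain ⟨b, _, hb⟩ := hx'
    omega

theorem nodup_Ter (c n : ℕ) : (Ter c n).Nodup :=
  List.nodup_range.map (fun a b (hab : 4 * a + c = 4 * b + c) => by omega)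

theorem isDigraph {V : List ℕ} {E : List (ℕ × ℕ)} (h : IsGraph V E) {n : ℕ} (hn : 0 < n) :
    IsDigraph (DV V E n) (DR V E n ++ blu V) := by
  have t1 : ∀ a ∈ clq 0 n, a.1 % 4 = 0 ∧ a.2 % 4 = 0 := fun a ha => tag_clq (by norm_num) ha
  have t2 : ∀ a ∈ clq 1 n, a.1 % 4 = 1 ∧ a.2 % 4 = 1 := fun a ha => tag_clq (by norm_num) ha
  have t3 : ∀ a ∈ toS (Ter 1 n ++ Mid V E) n, a.1 % 4 ≠ 0 ∧ a.2 % 4 = 0 := by
    intro a ha
    rw [mem_toS, List.mem_append, mem_Ter, mem_Mid] at ha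
    obtain ⟨(⟨i, _, h1⟩ | ⟨i, _, h1⟩ | ⟨i, _, h1⟩), j, _, h2⟩ := ha <;> omega
  have t4 : ∀ a ∈ ofT (Mid V E) n, a.1 % 4 = 1 ∧ 2 ≤ a.2 % 4 := by
    intro a ha
    rw [mem_ofT, mem_Mid] at ha
    obtain ⟨(⟨i, _, h1⟩ | ⟨i, _, h1⟩), j, _, h2⟩ := ha <;> omega
  have t5 : ∀ a ∈ src E, a.1 % 4 = 0 ∧ a.2 % 4 = 3 := by
    intro a ha
    rw [mem_src] at ha
    obtain ⟨h1, j, _, h2⟩ := ha
    omega
  have t6 : ∀ a ∈ inc E, a.1 % 4 = 3 ∧ a.2 % 4 = 2 := by
    intro a ha
    rw [mem_inc] at ha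
    obtain ⟨p, _, h1, h2 | h2⟩ := ha <;> omega
  have t7 : ∀ a ∈ blu V, a.1 % 4 = 2 ∧ a.2 % 4 = 1 := by
    intro a ha
    rw [mem_blu] at ha
    obtain ⟨h1, j, _, h2⟩ := ha
    omega
  refine ⟨?_, ?_, ?_⟩
  · unfold DV
    rw [List.nodup_append', List.nodup_append']
    refine ⟨nodup_Ter _ _, ⟨nodup_Ter _ _, nodup_Mid h, ?_⟩, ?_⟩
    · intro x hx hx'
      rw [mem_Ter] at hx
      rw [mem_Mid] at hx'
      obtain ⟨i, _, h1⟩ := hx
      obtain (⟨j, _, h2⟩ | ⟨j, _, h2⟩) := hx' <;> omega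
    · intro x hx hx'
      rw [mem_Ter] at hx
      rw [List.mem_append, mem_Ter, mem_Mid] at hx'
      obtain ⟨i, _, h1⟩ := hx
      obtain (⟨j, _, h2⟩ | ⟨j, _, h2⟩ | ⟨j, _, h2⟩) := hx' <;> omega
  · intro a ha
    have m0 : ∀ {i : ℕ}, i < n → 4 * i ∈ DV V E n := fun {i} hi => by
      unfold DV
      rw [List.mem_append]
      exact Or.inl (mem_Ter.2 ⟨i, hi, rfl⟩)
    have m1 : ∀ {i : ℕ}, i < n → 4 * i + 1 ∈ DV V E n := fun {i} hi => by
      unfold DV
      rw [List.mem_append, List.mem_append]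
      exact Or.inr (Or.inl (mem_Ter.2 ⟨i, hi, rfl⟩))
    have m2 : ∀ {x : ℕ}, x ∈ Mid V E → x ∈ DV V E n := fun {x} hx => by
      unfold DV
      rw [List.mem_append, List.mem_append]
      exact Or.inr (Or.inr hx)
    have m3 : ∀ {v : ℕ}, v ∈ V → 4 * v + 2 ∈ DV V E n := fun {v} hv =>
      m2 (mem_Mid.2 (Or.inl ⟨v, hv, rfl⟩))
    have m4 : ∀ {p : (ℕ × ℕ) × ℕ}, p ∈ E.zipIdx → 4 * p.2 + 3 ∈ DV V E n := fun {p} hp =>
      m2 (mem_Mid.2 (Or.inr ⟨p, hp, rfl⟩))
    unfold DR at ha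
    simp only [List.mem_append] at ha
    rcases ha with (ha | ha | ha | ha | ha | ha) | ha
    · obtain ⟨i, j, hi, hj, hij, rfl⟩ := mem_clq.1 ha
      exact ⟨m0 hi, m0 hj, by simp only; omega⟩
    · obtain ⟨i, j, hi, hj, hij, rfl⟩ := mem_clq.1 ha
      exact ⟨m1 hi, m1 hj, by simp only; omega⟩
    · have := t3 a ha
      obtain ⟨h1, i, hi, h2⟩ := mem_toS.1 ha
      refine ⟨?_, h2 ▸ m0 hi, by omega⟩
      unfold DV
      exact List.mem_append_right _ h1
    · have := t4 a ha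
      obtain ⟨h1, i, hi, h2⟩ := mem_ofT.1 ha
      exact ⟨h2 ▸ m1 hi, m2 h1, by omega⟩
    · have := t5 a ha
      obtain ⟨h1, p, hp, h2⟩ := mem_src.1 ha
      exact ⟨h1 ▸ m0 hn, h2 ▸ m4 hp, by omega⟩
    · have := t6 a ha
      obtain ⟨p, hp, h1, h2⟩ := mem_inc.1 ha
      have h3 := h.2.1 _ (zipIdx_fst hp)
      refine ⟨h1 ▸ m4 hp, ?_, by omega⟩
      rcases h2 with h2 | h2
      · exact h2 ▸ m3 h3.1
      · exact h2 ▸ m3 h3.2.1
    · have := t7 a ha
      obtain ⟨h1, v, hv, h2⟩ := mem_blu.1 ha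
      exact ⟨h2 ▸ m3 hv, h1 ▸ m1 hn, by omega⟩
  · unfold DR
    simp only [List.append_assoc]
    rw [List.nodup_append', List.nodup_append', List.nodup_append', List.nodup_append',
      List.nodup_append', List.nodup_append']
    refine ⟨nodup_clq _ _, ⟨nodup_clq _ _, ⟨nodup_toS ?_ n, ⟨nodup_ofT (nodup_Mid h) n, ⟨?_, ⟨?_, ?_, ?_⟩,
      ?_⟩, ?_⟩, ?_⟩, ?_⟩, ?_⟩
    · rw [List.nodup_append']
      refine ⟨nodup_Ter _ _, nodup_Mid h, ?_⟩
      intro x hx hx'
      rw [mem_Ter] at hx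
      rw [mem_Mid] at hx'
      obtain ⟨i, _, h1⟩ := hx
      obtain (⟨j, _, h2⟩ | ⟨j, _, h2⟩) := hx' <;> omega
    · unfold src
      refine List.Nodup.map_on ?_ (zipIdx_nodup' E)
      intro p hp q hq hpq
      simp only [Prod.mk.injEq] at hpq
      exact zipIdx_inj hp hq (by omega)
    · unfold inc
      rw [List.nodup_flatMap]
      refine ⟨fun p hp => ?_, ?_⟩
      · have := (h.2.1 _ (zipIdx_fst hp)).2.2
        simp only [List.nodup_cons, List.mem_cons, List.not_mem_nil, or_false, Prod.mk.injEq, true_and,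
          not_false_eq_true, List.nodup_nil, and_true]
        omega
      · refine ((List.pairwise_map.1 (zipIdx_snd_nodup E))).imp ?_
        intro p q hpq a ha hb
        simp only [List.mem_cons, List.not_mem_nil, or_false] at ha hb
        rcases ha with rfl | rfl <;> rcases hb with hb | hb <;> simp only [Prod.mk.injEq] at hb <;> omega
    · unfold blu
      exact h.1.map (fun a b hab => by simp only [Prod.mk.injEq] at hab; omega)
    · intro a ha hb
      have := t6 a ha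
      have := t7 a hb
      omega
    · intro a ha hb
      have := t5 a ha
      simp only [List.mem_append] at hb
      rcases hb with hb | hb
      · have := t6 a hb; omega
      · have := t7 a hb; omega
    · intro a ha hb
      have := t4 a ha
      simp only [List.mem_append] at hb
      rcases hb with hb | hb | hb
      · have := t5 a hb; omega
      · have := t6 a hb; omega
      · have := t7 a hb; omega
    · intro a ha hb
      have := t3 a ha
      simp only [List.mem_append] at hb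
      rcases hb with hb | hb | hb | hb
      · have := t4 a hb; omega
      · have := t5 a hb; omega
      · have := t6 a hb; omega
      · have := t7 a hb; omega
    · intro a ha hb
      have := t2 a ha
      simp only [List.mem_append] at hb
      rcases hb with hb | hb | hb | hb | hb
      · have := t3 a hb; omega
      · have := t4 a hb; omega
      · have := t5 a hb; omega
      · have := t6 a hb; omega
      · have := t7 a hb; omega
    · intro a ha hb
      have := t1 a ha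
      simp only [List.mem_append] at hb
      rcases hb with hb | hb | hb | hb | hb | hb
      · have := t2 a hb; omega
      · have := t3 a hb; omega
      · have := t4 a hb; omega
      · have := t5 a hb; omega
      · have := t6 a hb; omega
      · have := t7 a hb; omega

theorem outCut_zero {A : List (ℕ × ℕ)} {X : Finset ℕ} (h : ∀ a ∈ A, a.1 ∈ X → a.2 ∈ X) :
    outCut A X = 0 := by
  unfold outCut
  rw [List.countP_eq_zero]
  intro a ha
  have := h a ha
  simp only [decide_eq_true_eq, not_and, not_not]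
  exact this

/-- correctness of the reduction -/
theorem dred_correct (I : (List ℕ × List (ℕ × ℕ)) × ℕ) (hI : IsGraph I.1.1 I.1.2 ∧ 2 ≤ I.2) :
    CLIQUE I ↔ DiCut (dred I) := by
  obtain ⟨⟨V, E⟩, k⟩ := I
  simp only at hI
  obtain ⟨hG, hk⟩ := hI
  unfold CLIQUE dred
  simp only
  rw [hasClique_iff hG hk, ← choose_eq]
  split_ifs with hm
  · unfold DiCut
    simp only
    set n := E.length + 2 with hn
    constructor
    · rintro ⟨-, U, hUV, hUc, hin⟩
      refine ⟨isDigraph hG (by omega), ?_⟩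
      set X : Finset ℕ := (Ter 0 n).toFinset ∪ ((U.image (fun x => 4 * x + 2)) ∪
        ((E.zipIdx.filter (fun p => decide (p.1.1 ∈ U) && decide (p.1.2 ∈ U))).map
          (fun p => 4 * p.2 + 3)).toFinset) with hX
      have hX' : ∀ x, x ∈ X ↔ (∃ i < n, x = 4 * i) ∨ (∃ v ∈ U, x = 4 * v + 2) ∨
          ∃ p ∈ E.zipIdx, p.1.1 ∈ U ∧ p.1.2 ∈ U ∧ x = 4 * p.2 + 3 := by
        intro x
        rw [hX]
        simp only [Finset.mem_union, Finset.mem_image, List.mem_toFinset,
          List.mem_map, List.mem_filter, Bool.and_eq_true, decide_eq_true_eq, mem_Ter, add_zero]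
        refine or_congr Iff.rfl (or_congr ?_ ?_)
        · exact exists_congr fun v => and_congr_right fun _ => eq_comm
        · constructor
          · rintro ⟨p, ⟨hp, h1, h2⟩, rfl⟩
            exact ⟨p, hp, h1, h2, rfl⟩
          · rintro ⟨p, hp, h1, h2, rfl⟩
            exact ⟨p, ⟨hp, h1, h2⟩, rfl⟩
      have hX0 : ∀ i < n, 4 * i ∈ X := fun i hi => (hX' _).2 (Or.inl ⟨i, hi, rfl⟩)
      have hX1 : ∀ i, 4 * i + 1 ∉ X := fun i hi => by
        rw [hX'] at hi
        obtain (⟨i, _, h1⟩ | ⟨i, _, h1⟩ | ⟨i, _, _, _, h1⟩) := hi <;> omega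
      have hX2 : ∀ v, 4 * v + 2 ∈ X ↔ v ∈ U := fun v => by
        rw [hX']
        constructor
        · rintro (⟨i, _, h1⟩ | ⟨i, hi, h1⟩ | ⟨i, _, _, _, h1⟩)
          · omega
          · obtain rfl : v = i := by omega
            exact hi
          · omega
        · intro h
          exact Or.inr (Or.inl ⟨v, h, rfl⟩)
      have hX3 : ∀ p ∈ E.zipIdx, (4 * p.2 + 3 ∈ X ↔ p.1.1 ∈ U ∧ p.1.2 ∈ U) := fun p hp => by
        rw [hX']
        constructor
        · rintro (⟨i, _, h1⟩ | ⟨i, hi, h1⟩ | ⟨i, hi, h2, h3, h1⟩)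
          · omega
          · omega
          · obtain rfl : p = i := zipIdx_inj hp hi (by omega)
            exact ⟨h2, h3⟩
        · intro h
          exact Or.inr (Or.inr ⟨p, hp, h.1, h.2, rfl⟩)
      refine ⟨X, ?_, ⟨4 * 0, hX0 0 (by omega)⟩, ⟨4 * 0 + 1, ?_, hX1 0⟩, ?_, ?_⟩
      · intro x hx
        rw [hX'] at hx
        unfold DV
        rw [List.mem_append, List.mem_append, mem_Mid]
        obtain (⟨i, h0, h1⟩ | ⟨i, h0, h1⟩ | ⟨p, hp, _, _, h1⟩) := hx
        · exact Or.inl (mem_Ter.2 ⟨i, h0, h1⟩)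
        · exact Or.inr (Or.inr (Or.inl ⟨i, hUV i h0, h1⟩))
        · exact Or.inr (Or.inr (Or.inr ⟨p, hp, h1⟩))
      · unfold DV
        rw [List.mem_append, List.mem_append]
        exact Or.inr (Or.inl (mem_Ter.2 ⟨0, by omega, rfl⟩))
      · unfold DR
        simp only [outCut_append]
        have e1 : outCut (clq 0 n) X = 0 := outCut_zero fun a ha _ => by
          obtain ⟨i, j, hi, hj, hij, rfl⟩ := mem_clq.1 ha
          exact hX0 j hj
        have e2 : outCut (clq 1 n) X = 0 := outCut_zero fun a ha h1 => by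
          obtain ⟨i, j, hi, hj, hij, rfl⟩ := mem_clq.1 ha
          exact absurd h1 (hX1 i)
        have e3 : outCut (toS (Ter 1 n ++ Mid V E) n) X = 0 := outCut_zero fun a ha _ => by
          obtain ⟨h1, i, hi, h2⟩ := mem_toS.1 ha
          rw [h2]
          exact hX0 i hi
        have e4 : outCut (ofT (Mid V E) n) X = 0 := outCut_zero fun a ha h3 => by
          obtain ⟨h1, i, hi, h2⟩ := mem_ofT.1 ha
          rw [h2] at h3
          exact absurd h3 (hX1 i)
        have e5 := src_inc_cut' X U E.zipIdx (hX0 0 (by omega)) (fun e he => ⟨hX2 _, hX2 _, hX3 e he⟩)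
        rw [zipIdx_inside, List.length_zipIdx] at e5
        unfold src inc
        omega
      · rw [outCut_blu hG.1 X U (hX1 0) (fun v => by rw [hX2]; exact ⟨fun h => ⟨hUV v h, h⟩, fun h => h.2⟩)]
        exact hUc
    · rintro ⟨-, X, hXV, ⟨x, hx⟩, ⟨y, hyV, hyX⟩, hR, hB⟩
      unfold DR at hR
      simp only [outCut_append] at hR
      -- some source terminal is in X
      have h1 : ∃ i < n, 4 * i ∈ X := by
        by_contra hcon
        push Not at hcon
        have hx' := hXV x hx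
        unfold DV at hx'
        rw [List.mem_append] at hx'
        rcases hx' with hx' | hx'
        · obtain ⟨i, hi, h⟩ := mem_Ter.1 hx'
          exact hcon i hi (by rw [h] at hx; exact hx)
        · have := toS_cut hx' hx hcon
          omega
      have h2 : ∀ j < n, 4 * j ∈ X := by
        intro j hj
        obtain ⟨i, hi, hiX⟩ := h1
        by_contra hcon
        have := clq_cut (c := 0) hi hj hiX hcon
        omega
      have h3 : ∃ i < n, 4 * i + 1 ∉ X := by
        by_contra hcon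
        push Not at hcon
        unfold DV at hyV
        rw [List.mem_append, List.mem_append] at hyV
        rcases hyV with hy | hy | hy
        · obtain ⟨i, hi, h⟩ := mem_Ter.1 hy
          exact hyX (by rw [h]; exact h2 i hi)
        · obtain ⟨i, hi, h⟩ := mem_Ter.1 hy
          exact hyX (by rw [h]; exact hcon i hi)
        · have := ofT_cut hy hyX hcon
          omega
      have h4 : ∀ j < n, 4 * j + 1 ∉ X := by
        intro j hj hcon
        obtain ⟨i, hi, hiX⟩ := h3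
        have := clq_cut (c := 1) hj hi hcon hiX
        omega
      refine ⟨hG, V.toFinset.filter (fun v => 4 * v + 2 ∈ X), ?_, ?_, ?_⟩
      · intro v hv
        simp only [Finset.mem_filter, List.mem_toFinset] at hv
        exact hv.1
      · rw [← outCut_blu hG.1 X _ (h4 0 (by omega)) (fun v => by
          simp only [Finset.mem_filter, List.mem_toFinset])]
        exact hB
      · have e5 := src_inc_cut X (V.toFinset.filter (fun v => 4 * v + 2 ∈ X)) E.zipIdx
          (h2 0 (by omega)) (fun e he => by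
            have := hG.2.1 _ (zipIdx_fst he)
            simp only [Finset.mem_filter, List.mem_toFinset, this, true_and, and_self])
        rw [zipIdx_inside, List.length_zipIdx] at e5
        unfold src inc at hR
        omega
  · unfold DiCut
    simp only
    constructor
    · rintro ⟨-, U, hUV, hUc, hin⟩
      exfalso
      apply hm
      refine hin.trans ?_
      unfold inside
      exact List.countP_le_length
    · rintro ⟨-, X, hXV, ⟨x, hx⟩, ⟨y, hyV, hyX⟩, hR, -⟩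
      exfalso
      have hx' := hXV x hx
      simp only [List.mem_cons, List.not_mem_nil, or_false] at hx' hyV
      have h01 : (0 ∈ X ∧ 1 ∉ X) ∨ (1 ∈ X ∧ 0 ∉ X) := by
        rcases hx' with rfl | rfl <;> rcases hyV with rfl | rfl
        · exact absurd hx hyX
        · exact Or.inl ⟨hx, hyX⟩
        · exact Or.inr ⟨hx, hyX⟩
        · exact absurd hx hyX
      rcases h01 with ⟨g0, g1⟩ | ⟨g0, g1⟩ <;> simp [outCut, g0, g1] at hR

theorem range2_poly {α : Type} [TEnc α] {E : α → List (ℕ × ℕ)} (hE : NPC.Poly E) :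
    NPC.Poly (fun a => List.range ((E a).length + 2)) :=
  (UPoly.add (UPoly.length hE) (UPoly.const 2)).range

attribute [local fun_prop] range2_poly

theorem dred_poly : NPC.Poly dred := by
  unfold dred DV DR Ter Mid clq toS ofT src inc blu
  fun_prop

theorem dhard : NPHardP DiCut :=
  (hardPr_CLIQUE.trans (Pr' := fun _ => True) dred_poly (fun _ _ => trivial) dred_correct).toHardI.toNPHardP

theorem pp_isDigraph {α : Type} [TEnc α] {V : α → List ℕ} {E : α → List (ℕ × ℕ)} (hV : NPC.Poly V)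
    (hE : NPC.Poly E) : PP (fun a => IsDigraph (V a) (E a)) := by
  unfold IsDigraph
  refine PP.and (Y592.OP.pp_nodup hV) (PP.and ?_ (Y592.OP.pp_nodup hE))
  refine PP.ball hE ?_
  exact PP.and (PP.mem (by fun_prop) (by fun_prop)) (PP.and (PP.mem (by fun_prop) (by fun_prop))
    (PP.ne (by fun_prop) (by fun_prop)))

/-- membership in `NP`, directed -/
theorem dmem : InNPP DiCut := by
  have hPP : PP (fun x : DInst × List ℕ =>
      IsDigraph x.1.1.1 (x.1.1.2.1 ++ x.1.1.2.2) ∧ x.2.Nodup ∧ (∀ v ∈ x.2, v ∈ x.1.1.1) ∧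
      (∃ v ∈ x.2, v ∈ x.1.1.1) ∧ (∃ v ∈ x.1.1.1, v ∉ x.2) ∧
      x.1.1.2.1.countP (fun e => decide (e.1 ∈ x.2 ∧ e.2 ∉ x.2)) ≤ x.1.2.1 ∧
      x.1.1.2.2.countP (fun e => decide (e.1 ∈ x.2 ∧ e.2 ∉ x.2)) ≤ x.1.2.2) := by
    have hc : PP (fun y : (DInst × List ℕ) × (ℕ × ℕ) => y.2.1 ∈ y.1.2 ∧ y.2.2 ∉ y.1.2) :=
      PP.and (PP.mem (by fun_prop) (by fun_prop)) (PP.not (PP.mem (by fun_prop) (by fun_prop)))
    refine PP.and (pp_isDigraph (by fun_prop) (by fun_prop)) (PP.and (Y592.OP.pp_nodup (by fun_prop))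
      (PP.and ?_ (PP.and ?_ (PP.and ?_ (PP.and ?_ ?_)))))
    · exact PP.ball (by fun_prop) (PP.mem (by fun_prop) (by fun_prop))
    · exact PP.bex (by fun_prop) (PP.mem (by fun_prop) (by fun_prop))
    · exact PP.bex (by fun_prop) (PP.not (PP.mem (by fun_prop) (by fun_prop)))
    · exact pp_countP (r := fun (x : DInst × List ℕ) (e : ℕ × ℕ) => e.1 ∈ x.2 ∧ e.2 ∉ x.2)
        (by fun_prop) hc (by fun_prop)
    · exact pp_countP (r := fun (x : DInst × List ℕ) (e : ℕ × ℕ) => e.1 ∈ x.2 ∧ e.2 ∉ x.2)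
        (by fun_prop) hc (by fun_prop)
  obtain ⟨b, hb, hb'⟩ := hPP
  refine inNPP_of (β := List ℕ) hb (Polynomial.X * (Polynomial.X + 1) + 1) (fun I => ⟨?_, ?_⟩)
  · rintro ⟨h1, X, h5, ⟨x, hx⟩, ⟨y, hy, hy'⟩, h8, h9⟩
    refine ⟨X.toList, ?_, (hb' (I, X.toList)).2 ⟨h1, X.nodup_toList, ?_, ⟨x, ?_, ?_⟩, ⟨y, hy, ?_⟩, ?_, ?_⟩⟩
    · simp only [Polynomial.eval_add, Polynomial.eval_mul, Polynomial.eval_X, Polynomial.eval_one]
      refine sz_cert (V := I.1.1) X.nodup_toList (fun v hv => h5 v (Finset.mem_toList.1 hv)) ?_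
      obtain ⟨⟨V, R, B⟩, rb⟩ := I
      simp only [sz_pair]
      omega
    · exact fun v hv => h5 v (Finset.mem_toList.1 hv)
    · exact Finset.mem_toList.2 hx
    · exact h5 x hx
    · exact fun h => hy' (Finset.mem_toList.1 h)
    · simpa only [outCut, Finset.mem_toList] using h8
    · simpa only [outCut, Finset.mem_toList] using h9
  · rintro ⟨w, -, hw⟩
    obtain ⟨h1, -, h5, ⟨x, hx, -⟩, ⟨y, hy, hy'⟩, h8, h9⟩ := (hb' (I, w)).1 hw
    refine ⟨h1, w.toFinset, ?_, ⟨x, List.mem_toFinset.2 hx⟩, ⟨y, hy, ?_⟩, ?_, ?_⟩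
    · exact fun v hv => h5 v (List.mem_toFinset.1 hv)
    · exact fun h => hy' (List.mem_toFinset.1 h)
    · simpa only [outCut, List.mem_toFinset] using h8
    · simpa only [outCut, List.mem_toFinset] using h9

end Pool.Agent.X130.RB
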